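import Pool.Agent.Lib.MP_245544_coV.Iter1
import Pool.Agent.Lib.MP_245544_coI.LogAsy

/-! MP_245544_co: asymptotic form of the upper bound. -/

namespace Pool.Agent.MP_245544_coT

open Asymptotics Filter

theorem bb_isBigO (i : ℕ) :
    (fun n : ℕ => ((bb ((Nat.log 2)^[i] n) : ℕ) : ℝ)) =O[atTop]
      (fun n : ℕ => Real.log^[i + 1] (n : ℝ) / Real.log^[i + 2] (n : ℝ)) := by
  obtain ⟨C, hC, hb⟩ := (natLog_iter_isBigO i).exists_pos
  have hb' := hb.bound
  refine IsBigO.of_bound 10 ?_
  have h0 := (tendsto_log_iter i).eventually_ge_atTop 1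
  have h1 := (tendsto_log_iter (i + 1)).eventually_ge_atTop (max 1 (Real.log (C + 1)))
  have h2 := (tendsto_log_iter (i + 2)).eventually_ge_atTop 1
  filter_upwards [hb', h0, h1, h2] with n h3 h4 h5 h6
  have e1 : Real.log^[i + 1] (n : ℝ) = Real.log (Real.log^[i] (n : ℝ)) :=
    Function.iterate_succ_apply' _ _ _
  have e2 : Real.log^[i + 2] (n : ℝ) = Real.log (Real.log^[i + 1] (n : ℝ)) :=
    Function.iterate_succ_apply' _ _ _
  set a := (Nat.log 2)^[i] n with ha
  set x := Real.log^[i] (n : ℝ) with hx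
  set L := Real.log^[i + 1] (n : ℝ) with hL
  set M := Real.log^[i + 2] (n : ℝ) with hM
  have hL1 : 1 ≤ L := (le_max_left _ _).trans h5
  have hL2 : Real.log (C + 1) ≤ L := (le_max_right _ _).trans h5
  rw [Real.norm_of_nonneg (Nat.cast_nonneg _), Real.norm_of_nonneg (by linarith)] at h3
  rw [Real.norm_of_nonneg (Nat.cast_nonneg _), Real.norm_of_nonneg (by positivity)]
  have hMpos : 0 < M := by linarith
  set r := Real.sqrt L with hr
  have hr2 : r * r = L := Real.mul_self_sqrt (by linarith)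
  have hr1 : 1 ≤ r := by
    rw [hr]
    exact Real.one_le_sqrt.2 hL1
  have hMr : M ≤ 2 * r := by
    have h7 : M = 2 * Real.log r := by
      rw [e2, ← hr2, Real.log_mul (by linarith) (by linarith)]
      ring
    have h8 := Real.log_le_sub_one_of_pos (show 0 < r by linarith)
    rw [h7]
    linarith
  obtain ⟨q, hq⟩ : ∃ q, q = ⌊r⌋₊ + 2 := ⟨_, rfl⟩
  have hq2 : 2 ≤ q := by omega
  have hqle : (q : ℝ) ≤ r + 2 := by
    rw [hq]
    push_cast
    have := Nat.floor_le (show 0 ≤ r by linarith)
    linarith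
  have hqge : r ≤ q := by
    rw [hq]
    push_cast
    have := Nat.lt_floor_add_one r
    linarith
  have hlogq : M / 2 ≤ Real.log q := by
    have h7 : M = 2 * Real.log r := by
      rw [e2, ← hr2, Real.log_mul (by linarith) (by linarith)]
      ring
    have h8 : Real.log r ≤ Real.log q := Real.log_le_log (by linarith) hqge
    linarith
  have hlog : (Nat.log q a : ℝ) ≤ 4 * (L / M) := by
    rcases Nat.eq_zero_or_pos a with h7 | h7
    · rw [h7, Nat.log_zero_right]
      simp only [Nat.cast_zero]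
      positivity
    · have h8 : (Nat.log q a : ℝ) ≤ Real.logb q a := Real.natLog_le_logb a q
      have ha0 : (0 : ℝ) < a := by exact_mod_cast h7
      have h9 : Real.log a ≤ 2 * L := by
        have h10 : Real.log a ≤ Real.log (C + 1) + Real.log x := by
          rw [← Real.log_mul (by linarith) (by linarith)]
          refine Real.log_le_log ha0 (h3.trans ?_)
          nlinarith
        rw [← e1] at h10
        linarith
      refine h8.trans ?_
      rw [Real.logb, div_le_iff₀ (by linarith)]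
      have h11 : 4 * (L / M) * (M / 2) = 2 * L := by
        field_simp
        norm_num
      have h12 : 4 * (L / M) * (M / 2) ≤ 4 * (L / M) * Real.log q :=
        mul_le_mul_of_nonneg_left hlogq (by positivity)
      linarith
  have hrLM : r ≤ 2 * (L / M) := by
    have h7 : r * M ≤ 2 * L := by
      rw [← hr2]
      nlinarith
    have h8 : 2 * (L / M) = 2 * L / M := by ring
    rw [h8, le_div_iff₀ hMpos]
    exact h7
  have h7 : ((bb a : ℕ) : ℝ) ≤ (q : ℝ) + (Nat.log q a : ℝ) := by
    have h8 := bb_le (T := a) hq2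
    exact_mod_cast h8
  linarith

/-- Crossing distance at least `3 * 2 ^ j + 3`. -/
theorem maxEdges_isBigO_div {j k : ℕ} (hj : 1 ≤ j) (hk : 3 * 2 ^ j + 3 ≤ k) :
    (fun n : ℕ => (maxEdges k n : ℝ)) =O[atTop]
      (fun n : ℕ => (n : ℝ) * (Real.log^[j] (n : ℝ) / Real.log^[j + 1] (n : ℝ))) := by
  obtain ⟨C, hC⟩ := maxEdges_bb hj hk
  have h1 : (fun n : ℕ => (maxEdges k n : ℝ)) =O[atTop]
      (fun n : ℕ => (n : ℝ) * ((bb ((Nat.log 2)^[j - 1] n) : ℕ) : ℝ)) := by
    refine IsBigO.of_bound C (Eventually.of_forall fun n => ?_)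
    rw [Real.norm_of_nonneg (Nat.cast_nonneg _), Real.norm_of_nonneg (by positivity)]
    have h2 : ((maxEdges k n : ℕ) : ℝ) ≤ ((C * n * bb ((Nat.log 2)^[j - 1] n) : ℕ) : ℝ) := by
      exact_mod_cast hC n
    push_cast at h2
    linarith
  have h2 := bb_isBigO (j - 1)
  have h3 : j - 1 + 1 = j := by omega
  have h4 : j - 1 + 2 = j + 1 := by omega
  rw [h3, h4] at h2
  exact h1.trans ((isBigO_refl _ _).mul h2)

end Pool.Agent.MP_245544_coT
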