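import Pool.Agent.Lib.MP_245544_coI.Level1

/-! MP_245544_co: the base of the chain of radii `1, 4, 10, 22, 46`. A structure that is sparse at radius
`1` has at most `O(log T / log log T)` times its number of vertices incidences. -/

namespace Pool.Agent.MP_245544_coT

variable {V : Type} [DecidableEq V]

omit [DecidableEq V] in
private theorem b1_sum {α : Type} (T : Finset α) (c : α → ℕ) (k N : ℕ)
    (hN : ∀ t ∈ T, c t + k ≤ N) :
    ∑ s ∈ Finset.range N, (T.filter (fun t => c t ≤ s ∧ s < c t + k)).card = k * T.card := by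
  have h1 := Finset.sum_card_bipartiteAbove_eq_sum_card_bipartiteBelow (s := Finset.range N)
    (t := T) (fun s t => c t ≤ s ∧ s < c t + k)
  unfold Finset.bipartiteAbove Finset.bipartiteBelow at h1
  rw [h1]
  have h2 : ∀ t ∈ T, ((Finset.range N).filter (fun s => c t ≤ s ∧ s < c t + k)).card = k := by
    intro t ht
    have h3 : (Finset.range N).filter (fun s => c t ≤ s ∧ s < c t + k) =
        Finset.Ico (c t) (c t + k) := by
      ext s
      rw [Finset.mem_filter, Finset.mem_range, Finset.mem_Ico]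
      have h4 := hN t ht
      omega
    rw [h3, Nat.card_Ico, Nat.add_sub_cancel_left]
  rw [Finset.sum_congr rfl h2, Finset.sum_const, smul_eq_mul, mul_comm]

/-- Double counting with windows `[a l, a l + w)` attached to the right vertices: the factor `m` is
paid only for the left vertices. -/
theorem window_left {J : Finset (V × V)} {C w m : ℕ} (a b : V → ℕ) (hw : 1 ≤ w)
    (h : ∀ s, ∀ H ⊆ J, (∀ p ∈ H, a p.2 ≤ s ∧ s < a p.2 + w) → H.card ≤ C * nn H)
    (hb : ∀ p ∈ J, b p.1 ≤ a p.2 ∧ a p.2 + w ≤ b p.1 + m * w) :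
    J.card ≤ C * (m * (J.image Prod.fst).card + (J.image Prod.snd).card) := by
  set N : ℕ := J.sup (fun p => a p.2 + w) + J.sup (fun p => b p.1 + m * w) with hN
  have hN1 : ∀ p ∈ J, a p.2 + w ≤ N := by
    intro p hp
    have h1 : a p.2 + w ≤ J.sup (fun p => a p.2 + w) :=
      Finset.le_sup (f := fun p : V × V => a p.2 + w) hp
    omega
  have hN2 : ∀ p ∈ J, b p.1 + m * w ≤ N := by
    intro p hp
    have h1 : b p.1 + m * w ≤ J.sup (fun p => b p.1 + m * w) :=
      Finset.le_sup (f := fun p : V × V => b p.1 + m * w) hp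
    omega
  let H : ℕ → Finset (V × V) := fun s => J.filter (fun p => a p.2 ≤ s ∧ s < a p.2 + w)
  have hHJ : ∀ s, H s ⊆ J := fun s => Finset.filter_subset _ _
  have hH : ∀ s p, p ∈ H s ↔ p ∈ J ∧ a p.2 ≤ s ∧ s < a p.2 + w := fun s p =>
    Finset.mem_filter
  have e1 : ∑ s ∈ Finset.range N, (H s).card = w * J.card :=
    b1_sum J (fun p => a p.2) w N hN1
  have e2 : ∑ s ∈ Finset.range N, ((H s).image Prod.snd).card ≤ w * (J.image Prod.snd).card := by
    rw [← b1_sum (J.image Prod.snd) a w N (by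
      intro l hl
      obtain ⟨p, hp, rfl⟩ := Finset.mem_image.1 hl
      exact hN1 p hp)]
    refine Finset.sum_le_sum fun s _ => Finset.card_le_card ?_
    intro l hl
    obtain ⟨p, hp, rfl⟩ := Finset.mem_image.1 hl
    rw [hH] at hp
    exact Finset.mem_filter.2 ⟨Finset.mem_image_of_mem _ hp.1, hp.2⟩
  have e3 : ∑ s ∈ Finset.range N, ((H s).image Prod.fst).card ≤
      m * w * (J.image Prod.fst).card := by
    rw [← b1_sum (J.image Prod.fst) b (m * w) N (by
      intro l hl
      obtain ⟨p, hp, rfl⟩ := Finset.mem_image.1 hl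
      exact hN2 p hp)]
    refine Finset.sum_le_sum fun s _ => Finset.card_le_card ?_
    intro l hl
    obtain ⟨p, hp, rfl⟩ := Finset.mem_image.1 hl
    rw [hH] at hp
    have h1 := hb p hp.1
    refine Finset.mem_filter.2 ⟨Finset.mem_image_of_mem _ hp.1, ?_, ?_⟩
    · exact h1.1.trans hp.2.1
    · exact lt_of_lt_of_le hp.2.2 h1.2
  have e4 : ∑ s ∈ Finset.range N, (H s).card ≤
      ∑ s ∈ Finset.range N, C * (((H s).image Prod.fst).card + ((H s).image Prod.snd).card) :=
    Finset.sum_le_sum fun s _ => h s (H s) (hHJ s) fun p hp => ((hH s p).1 hp).2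
  rw [e1, ← Finset.mul_sum, Finset.sum_add_distrib] at e4
  have e5 : w * J.card ≤ w * (C * (m * (J.image Prod.fst).card + (J.image Prod.snd).card)) := by
    calc w * J.card ≤ C * (m * w * (J.image Prod.fst).card + w * (J.image Prod.snd).card) :=
          e4.trans (Nat.mul_le_mul_left C (Nat.add_le_add e3 e2))
      _ = w * (C * (m * (J.image Prod.fst).card + (J.image Prod.snd).card)) := by ring
  exact Nat.le_of_mul_le_mul_left e5 hw

/-- The base at radius `1`: for every `q ≥ 2` the loss is `q + log_q T`. -/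
theorem Spr.base_one {C : ℕ} {I : Finset (V × V)} {f g : V → ℕ} (h : Spr 1 C I f g)
    (hfg : ∀ p ∈ I, f p.1 ≤ g p.2) {T q : ℕ} (hT : ∀ p ∈ I, g p.2 ≤ T) (hq : 2 ≤ q) :
    I.card ≤ 7 * C * (q + Nat.log q T) * nn I := by
  obtain ⟨J, hJ⟩ : ∃ J : ℕ → Finset (V × V), ∀ i, J i =
      I.filter (fun p => f p.1 < g p.2 ∧ Nat.log q (up I g p.1 - f p.1) = i) := ⟨_, fun _ => rfl⟩
  have hsub : ∀ i, J i ⊆ I := fun i => by
    rw [hJ]
    exact Finset.filter_subset _ _
  have hz : ∀ p ∈ I, ∀ s, f p.1 ≤ s → s ≤ up I g p.1 → f p.1 ≤ s ∧ s ≤ E 1 I g (side 1 p) :=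
    fun p _ s h1 h2 => ⟨h1, h2⟩
  have hcl : ∀ i, (J i).card ≤
      2 * (C * ((2 * q + 1) * ((J i).image Prod.fst).card + ((J i).image Prod.snd).card)) := by
    intro i
    obtain ⟨W, hW⟩ : ∃ W, W = q ^ i := ⟨_, rfl⟩
    have hW1 : 1 ≤ W := by
      rw [hW]
      exact Nat.one_le_pow _ _ (by omega)
    obtain ⟨w, hw⟩ : ∃ w, w = (W + 1) / 2 := ⟨_, rfl⟩
    have hw1 : 1 ≤ w := by omega
    have hd : ∀ p ∈ J i, p ∈ I ∧ f p.1 < g p.2 ∧ g p.2 ≤ up I g p.1 ∧ W ≤ up I g p.1 - f p.1 ∧
        up I g p.1 < f p.1 + 2 * q * w := by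
      intro p hp
      rw [hJ] at hp
      obtain ⟨h1, h2, h3⟩ := Finset.mem_filter.1 hp
      have h4 : g p.2 ≤ up I g p.1 := le_up g h1
      have h5 : W ≤ up I g p.1 - f p.1 := by
        rw [hW, ← h3]
        exact Nat.pow_log_le_self q (by omega)
      have h6 : up I g p.1 - f p.1 < q ^ (i + 1) := by
        rw [← h3]
        exact Nat.lt_pow_succ_log_self (by omega) _
      have h7 : q ^ (i + 1) ≤ 2 * q * w := by
        rw [pow_succ, ← hW]
        have h8 : W ≤ 2 * w := by omega
        calc W * q ≤ 2 * w * q := Nat.mul_le_mul_right _ h8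
          _ = 2 * q * w := by ring
      exact ⟨h1, h2, h4, h5, by omega⟩
    obtain ⟨J1, hJ1⟩ : ∃ J1, J1 = (J i).filter (fun p => W ≤ 2 * (up I g p.1 - g p.2)) := ⟨_, rfl⟩
    obtain ⟨J2, hJ2⟩ : ∃ J2, J2 = (J i).filter (fun p => W ≤ 2 * (g p.2 - f p.1)) := ⟨_, rfl⟩
    have hs1 : J1 ⊆ J i := by
      rw [hJ1]
      exact Finset.filter_subset _ _
    have hs2 : J2 ⊆ J i := by
      rw [hJ2]
      exact Finset.filter_subset _ _
    have hcov : J i ⊆ J1 ∪ J2 := by
      intro p hp
      obtain ⟨h1, h2, h3, h4, h5⟩ := hd p hp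
      rw [Finset.mem_union]
      rcases le_or_gt W (2 * (up I g p.1 - g p.2)) with h6 | h6
      · left
        rw [hJ1]
        exact Finset.mem_filter.2 ⟨hp, h6⟩
      · right
        rw [hJ2]
        exact Finset.mem_filter.2 ⟨hp, by omega⟩
    have hm : ∀ J' : Finset (V × V), J' ⊆ J i →
        C * ((2 * q + 1) * (J'.image Prod.fst).card + (J'.image Prod.snd).card) ≤
        C * ((2 * q + 1) * ((J i).image Prod.fst).card + ((J i).image Prod.snd).card) := by
      intro J' hJ'
      refine Nat.mul_le_mul_left _ (Nat.add_le_add (Nat.mul_le_mul_left _ ?_) ?_)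
      · exact Finset.card_le_card (Finset.image_subset_image hJ')
      · exact Finset.card_le_card (Finset.image_subset_image hJ')
    have c1 : J1.card ≤
        C * ((2 * q + 1) * ((J i).image Prod.fst).card + ((J i).image Prod.snd).card) := by
      refine le_trans (window_left (J := J1) (C := C) (w := w) (m := 2 * q + 1) g f hw1 ?_ ?_)
        (hm J1 hs1)
      · intro s H hH hs
        refine h s H ((hH.trans hs1).trans (hsub i)) fun p hp => ?_
        obtain ⟨h1, h2, h3, h4, h5⟩ := hd p (hs1 (hH hp))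
        have h6 := hH hp
        rw [hJ1] at h6
        have h7 := (Finset.mem_filter.1 h6).2
        have h8 := hs p hp
        exact hz p h1 s (by omega) (by omega)
      · intro p hp
        obtain ⟨h1, h2, h3, h4, h5⟩ := hd p (hs1 hp)
        have h6 : (2 * q + 1) * w = 2 * q * w + w := by ring
        rw [h6]
        omega
    have c2 : J2.card ≤
        C * ((2 * q + 1) * ((J i).image Prod.fst).card + ((J i).image Prod.snd).card) := by
      refine le_trans (window_left (J := J2) (C := C) (w := w) (m := 2 * q + 1)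
        (fun l => g l - w) f hw1 ?_ ?_) (hm J2 hs2)
      · intro s H hH hs
        refine h s H ((hH.trans hs2).trans (hsub i)) fun p hp => ?_
        obtain ⟨h1, h2, h3, h4, h5⟩ := hd p (hs2 (hH hp))
        have h6 := hH hp
        rw [hJ2] at h6
        have h7 := (Finset.mem_filter.1 h6).2
        have h8 := hs p hp
        exact hz p h1 s (by omega) (by omega)
      · intro p hp
        obtain ⟨h1, h2, h3, h4, h5⟩ := hd p (hs2 hp)
        have h7 := hp
        rw [hJ2] at h7
        have h8 := (Finset.mem_filter.1 h7).2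
        have h6 : (2 * q + 1) * w = 2 * q * w + w := by ring
        rw [h6]
        constructor
        · omega
        · omega
    have c3 := (Finset.card_le_card hcov).trans (Finset.card_union_le _ _)
    omega
  have hcov : I ⊆ I.filter (fun p => f p.1 = g p.2) ∪
      (Finset.range (Nat.log q T + 1)).biUnion J := by
    intro p hp
    rw [Finset.mem_union, Finset.mem_filter, Finset.mem_biUnion]
    rcases Nat.eq_or_lt_of_le (hfg p hp) with h1 | h1
    · exact Or.inl ⟨hp, h1⟩
    · right
      refine ⟨Nat.log q (up I g p.1 - f p.1), ?_, ?_⟩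
      · rw [Finset.mem_range, Nat.lt_succ_iff]
        exact Nat.log_mono_right ((Nat.sub_le _ _).trans (up_le fun w hw => hT (p.1, w) hw))
      · rw [hJ]
        exact Finset.mem_filter.2 ⟨hp, h1, rfl⟩
  obtain ⟨X, hX⟩ : ∃ X, X = (I.image Prod.fst).card := ⟨_, rfl⟩
  obtain ⟨L, hL⟩ : ∃ L, L = (I.image Prod.snd).card := ⟨_, rfl⟩
  have hnn : nn I = X + L := by
    rw [hX, hL]
    rfl
  have hsumX : ∑ i ∈ Finset.range (Nat.log q T + 1), ((J i).image Prod.fst).card ≤ X := by
    rw [← Finset.card_biUnion, hX]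
    · refine Finset.card_le_card fun v hv => ?_
      obtain ⟨i, -, hi⟩ := Finset.mem_biUnion.1 hv
      exact Finset.image_subset_image (hsub i) hi
    · intro i _ j _ hij
      rw [Function.onFun, Finset.disjoint_left]
      intro v hv hv'
      obtain ⟨p, hp, rfl⟩ := Finset.mem_image.1 hv
      obtain ⟨p', hp', h1⟩ := Finset.mem_image.1 hv'
      rw [hJ] at hp hp'
      have h2 := (Finset.mem_filter.1 hp).2.2
      have h3 := (Finset.mem_filter.1 hp').2.2
      rw [h1] at h3
      exact hij (h2.symm.trans h3)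
  have hsumL : ∑ i ∈ Finset.range (Nat.log q T + 1), ((J i).image Prod.snd).card ≤
      (Nat.log q T + 1) * L := by
    refine (Finset.sum_le_card_nsmul _ _ L fun i _ => ?_).trans ?_
    · rw [hL]
      exact Finset.card_le_card (Finset.image_subset_image (hsub i))
    · rw [Finset.card_range, smul_eq_mul]
  have h1 : I.card ≤ C * nn I + 2 * (C * ((2 * q + 1) * X + (Nat.log q T + 1) * L)) := by
    refine (Finset.card_le_card hcov).trans ((Finset.card_union_le _ _).trans
      (Nat.add_le_add h.ties ?_))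
    refine (Finset.card_biUnion_le).trans ?_
    refine (Finset.sum_le_sum fun i _ => hcl i).trans ?_
    rw [← Finset.mul_sum, ← Finset.mul_sum, Finset.sum_add_distrib, ← Finset.mul_sum]
    exact Nat.mul_le_mul_left _ (Nat.mul_le_mul_left _ (Nat.add_le_add
      (Nat.mul_le_mul_left _ hsumX) hsumL))
  refine h1.trans ?_
  rw [hnn]
  generalize Nat.log q T = t
  have h2 : (2 * q + 1) * X + (t + 1) * L ≤ (2 * q + 1 + (t + 1)) * (X + L) := by nlinarith
  have h3 : C * (X + L) + 2 * (C * ((2 * q + 1) * X + (t + 1) * L)) ≤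
      C * (X + L) + 2 * (C * ((2 * q + 1 + (t + 1)) * (X + L))) :=
    Nat.add_le_add_left (Nat.mul_le_mul_left _ (Nat.mul_le_mul_left _ h2)) _
  refine h3.trans ?_
  have h4 : C * (X + L) + 2 * (C * ((2 * q + 1 + (t + 1)) * (X + L))) =
      (4 * q + 2 * t + 5) * (C * (X + L)) := by ring
  have h5 : 7 * C * (q + t) * (X + L) = (7 * q + 7 * t) * (C * (X + L)) := by ring
  rw [h4, h5]
  exact Nat.mul_le_mul_right _ (by omega)

end Pool.Agent.MP_245544_coT
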