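import Pool.Agent.Lib.MP_245544_coI.LemA

/-! MP_245544_co: Lemma A for the radius `1`. -/

namespace Pool.Agent.MP_245544_coT

variable {V : Type} [DecidableEq V]

private theorem la1_sub1 {I : Finset (V × V)} {f g : V → ℕ} : clsA I f g ⊆ I :=
  Finset.filter_subset _ _

private theorem la1_sub2 {K ε : ℕ} {I : Finset (V × V)} {f g : V → ℕ} :
    clsA' K ε I f g ⊆ clsA I f g :=
  Finset.filter_subset _ _

private theorem la1_E2 (I : Finset (V × V)) (g : V → ℕ) : E 2 I g = up (tr I) (up I g) := rfl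

private theorem la1_E1 (I : Finset (V × V)) (g : V → ℕ) : E 1 I g = up I g := rfl

private theorem la1_E3 (I : Finset (V × V)) (g : V → ℕ) : E 3 I g = up I (E 2 I g) := by
  have h := E_succ 2 I g
  rw [if_pos (by norm_num)] at h
  exact h

omit [DecidableEq V] in
private theorem la1_side1 (p : V × V) : side 1 p = p.1 := rfl

omit [DecidableEq V] in
private theorem la1_side3 (p : V × V) : side 3 p = p.1 := rfl

/-- A left vertex with large position. -/
private theorem la1_base {K ε s : ℕ} {I : Finset (V × V)} {f g : V → ℕ} {v l : V}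
    (hp : (v, l) ∈ clsA' K ε I f g) (hs : s ≤ posA K I f g v) (hK : 2 ≤ K) :
    2 * g l + K ^ (2 * s + ε) ≤ 2 * E 2 I g l := by
  obtain ⟨h1, h2⟩ := Finset.mem_filter.1 hp
  obtain ⟨h3, h4, h5⟩ := Finset.mem_filter.1 h1
  simp only at h2 h4 h5
  have h6 : g l ≤ up I g v := le_up g h3
  have h7 : up I g v ≤ E 2 I g l := by
    rw [la1_E2]
    exact le_up (up I g) (mem_tr.2 h3)
  have h8 : K ^ (2 * s + ε) ≤ up I g v - f v := by
    have h9 : K ^ Nat.log K (up I g v - f v) ≤ up I g v - f v :=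
      Nat.pow_log_le_self K (by omega)
    refine le_trans (Nat.pow_le_pow_right (by omega) ?_) h9
    unfold posA at hs
    omega
  omega

/-- Class A is a sparse structure with logarithmic positions (radius `1`). -/
theorem Spr.clsA'_one {C K ε : ℕ} {I : Finset (V × V)} {f g : V → ℕ} (h : Spr 3 C I f g)
    (hfg : ∀ p ∈ I, f p.1 ≤ g p.2) (hK : 4 ≤ K) (hε : ε < 2) :
    Spr 1 (C * (4 * K + 1)) (Pool.Agent.MP_245544_coT.clsA' K ε I f g) (posA K I f g)
      (up (tr (Pool.Agent.MP_245544_coT.clsA' K ε I f g)) (posA K I f g)) := by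
  intro s H hH hs
  obtain ⟨J, hJ⟩ : ∃ J, J = Pool.Agent.MP_245544_coT.clsA' K ε I f g := ⟨_, rfl⟩
  have hJI : J ⊆ I := by
    rw [hJ]
    exact la1_sub2.trans la1_sub1
  rw [← hJ] at hH
  -- the left vertices
  have hlog : ∀ v l, (v, l) ∈ J → Nat.log K (up I g v - f v) = 2 * posA K I f g v + ε ∧
      f v < g l ∧ g l ≤ up I g v := by
    intro v l hp
    rw [hJ] at hp
    obtain ⟨h1, h2⟩ := Finset.mem_filter.1 hp
    obtain ⟨h3, h4, -⟩ := Finset.mem_filter.1 h1
    simp only at h2 h4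
    refine ⟨?_, h4, le_up g h3⟩
    unfold posA
    omega
  obtain ⟨M, hM⟩ : ∃ M, M = K ^ (2 * s + ε) := ⟨_, rfl⟩
  have hB : ∀ v l, (v, l) ∈ J → posA K I f g v < s → 4 * (up I g v - f v) ≤ M := by
    intro v l hp hv
    obtain ⟨h1, -, -⟩ := hlog v l hp
    have h2 : up I g v - f v < K ^ (Nat.log K (up I g v - f v) + 1) :=
      Nat.lt_pow_succ_log_self (by omega) _
    have h3 : up I g v - f v ≤ K ^ (2 * s + ε - 1) :=
      h2.le.trans (Nat.pow_le_pow_right (by omega) (by omega))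
    have h4 : 2 * s + ε = (2 * s + ε - 1) + 1 := by omega
    calc 4 * (up I g v - f v) ≤ K * K ^ (2 * s + ε - 1) := Nat.mul_le_mul hK h3
      _ = M := by
        rw [hM]
        conv_rhs => rw [h4, pow_succ]
        rw [mul_comm]
  have hcl : ∀ p ∈ H, 4 * g p.2 + M ≤ 4 * E 3 I g p.1 := by
    intro p hp
    obtain ⟨v, l⟩ := p
    obtain ⟨h0, h1⟩ := hs _ hp
    rw [la1_side1, la1_E1] at h1
    simp only at h0 h1 ⊢
    have hvl : (v, l) ∈ J := hH hp
    rw [la1_E3]
    rcases Nat.lt_or_ge (posA K I f g v) s with h7 | h7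
    · -- `v` has a small position
      rw [← hJ] at h1
      obtain ⟨l1, h2, h3⟩ := exists_up (up (tr J) (posA K I f g)) hvl
      obtain ⟨v', h4, h5⟩ := exists_up (posA K I f g) (mem_tr.2 h2)
      rw [h3, h5] at h1
      have h6 := mem_tr.1 h4
      rw [hJ] at h6
      have h8 := la1_base h6 h1 (by omega)
      rw [← hM] at h8
      have h9 : E 2 I g l1 ≤ up I (E 2 I g) v := le_up (E 2 I g) (hJI h2)
      have h10 := hB v l hvl h7
      have h11 : g l ≤ up I g v := le_up g (hJI hvl)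
      have h12 : f v ≤ g l1 := hfg _ (hJI h2)
      omega
    · have h6 := hvl
      rw [hJ] at h6
      have h8 := la1_base h6 h7 (by omega)
      rw [← hM] at h8
      have h9 : E 2 I g l ≤ up I (E 2 I g) v := le_up (E 2 I g) (hJI hvl)
      omega
  have h1 := h.window (J := H) (hH.trans hJI) (w := M / 4 + 1) (m := 4 * K + 1) g f
    (by omega) (by omega) ?_ ?_
  · exact h1
  · intro p hp s' hs1 hs2
    rw [la1_side3]
    have h2 := hcl p hp
    have h3 := hfg p (hJI (hH hp))
    constructor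
    · omega
    · omega
  · intro p hp
    obtain ⟨v, l⟩ := p
    refine ⟨hfg _ (hJI (hH hp)), ?_⟩
    obtain ⟨h2, h3, h4⟩ := hlog v l (hH hp)
    obtain ⟨h5, -⟩ := hs _ hp
    simp only at h5 ⊢
    have h6 : up I g v - f v < K ^ (Nat.log K (up I g v - f v) + 1) :=
      Nat.lt_pow_succ_log_self (by omega) _
    have h7 : up I g v - f v < K * M := by
      refine lt_of_lt_of_le h6 ?_
      have h8 : K * M = K ^ (2 * s + ε + 1) := by
        rw [hM, pow_succ, mul_comm]
      rw [h8]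
      exact Nat.pow_le_pow_right (by omega) (by omega)
    have h9 : M ≤ 4 * (M / 4 + 1) := by omega
    have h10 : K * M ≤ 4 * K * (M / 4 + 1) := by
      calc K * M ≤ K * (4 * (M / 4 + 1)) := Nat.mul_le_mul_left _ h9
        _ = 4 * K * (M / 4 + 1) := by ring
    have h11 : (4 * K + 1) * (M / 4 + 1) = 4 * K * (M / 4 + 1) + (M / 4 + 1) := by ring
    rw [h11]
    omega

/-- The number of incidences of class A (radius `1`). -/
theorem Spr.card_clsA_one {C K A T : ℕ} (b : ℕ → ℕ)
    (hTH : ∀ (I' : Finset (V × V)) (f' g' : V → ℕ) (T' : ℕ), Spr 1 (C * (4 * K + 1)) I' f' g' →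
      (∀ p ∈ I', f' p.1 ≤ g' p.2) → (∀ p ∈ I', g' p.2 ≤ T') → I'.card ≤ A * b T' * nn I')
    {I : Finset (V × V)} {f g : V → ℕ} (h : Spr 3 C I f g)
    (hfg : ∀ p ∈ I, f p.1 ≤ g p.2) (hT : ∀ p ∈ I, g p.2 ≤ T) (hK : 4 ≤ K) :
    (clsA I f g).card ≤ 2 * A * b (Nat.log 2 T) * nn I := by
  have hcl : ∀ ε < 2, (Pool.Agent.MP_245544_coT.clsA' K ε I f g).card ≤
      A * b (Nat.log 2 T) * nn I := by
    intro ε hε
    have h1 := hTH _ _ _ (Nat.log 2 T) (h.clsA'_one hfg hK hε) ?_ ?_
    · exact h1.trans (Nat.mul_le_mul_left _ (nn_mono (la1_sub2.trans la1_sub1)))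
    · intro p hp
      exact le_up _ (mem_tr.2 hp)
    · intro p hp
      refine up_le fun v hv => ?_
      have hv' := la1_sub1 (la1_sub2 (mem_tr.1 hv))
      refine (Nat.div_le_self _ _).trans ?_
      refine (Nat.log_anti_left (by norm_num) (by omega : 2 ≤ K)).trans ?_
      refine Nat.log_mono_right ((Nat.sub_le _ _).trans (up_le fun w hw => hT _ hw))
  have hcov : clsA I f g ⊆ Pool.Agent.MP_245544_coT.clsA' K 0 I f g ∪
      Pool.Agent.MP_245544_coT.clsA' K 1 I f g := by
    intro p hp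
    rw [Finset.mem_union]
    rcases Nat.mod_two_eq_zero_or_one (Nat.log K (up I g p.1 - f p.1)) with h1 | h1
    · exact Or.inl (Finset.mem_filter.2 ⟨hp, h1⟩)
    · exact Or.inr (Finset.mem_filter.2 ⟨hp, h1⟩)
  have h1 := hcl 0 (by norm_num)
  have h2 := hcl 1 (by norm_num)
  have h3 := (Finset.card_le_card hcov).trans (Finset.card_union_le _ _)
  have h4 : 2 * A * b (Nat.log 2 T) * nn I = 2 * (A * b (Nat.log 2 T) * nn I) := by ring
  rw [h4]
  omega

end Pool.Agent.MP_245544_coT
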