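import Pool.Agent.Lib.MP_245544_coI.LemB

/-! MP_245544_co: Lemma B for the radius `1`. -/

namespace Pool.Agent.MP_245544_coT

variable {V : Type} [DecidableEq V]

/-- The window lemma with windows attached to the left vertices. -/
theorem window_tr {J : Finset (V × V)} {C w m : ℕ} (a b : V → ℕ) (hw : 1 ≤ w) (hm : 1 ≤ m)
    (h : ∀ s, ∀ H ⊆ J, (∀ p ∈ H, a p.1 ≤ s ∧ s < a p.1 + w) → H.card ≤ C * nn H)
    (hb : ∀ p ∈ J, b p.2 ≤ a p.1 ∧ a p.1 + w ≤ b p.2 + m * w) : J.card ≤ C * m * nn J := by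
  have h1 := window (J := tr J) (C := C) (w := w) (m := m) a b hw hm ?_ ?_
  · rwa [card_tr, nn_tr] at h1
  · intro s H hH hs
    have h2 := h s (tr H) ?_ ?_
    · rwa [card_tr, nn_tr] at h2
    · have h3 := tr_mono hH
      rwa [tr_tr] at h3
    · intro p hp
      exact hs _ (mem_tr'.1 hp)
  · intro p hp
    exact hb _ (mem_tr'.1 hp)

/-- What remains after `2` steps is a sparse structure of radius `1` with logarithmic positions. -/
theorem Spr.chain_spr_one {C K T : ℕ} {I : Finset (V × V)} {f g : V → ℕ} (h : Spr 1 C I f g)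
    (hfg : ∀ p ∈ I, f p.1 ≤ g p.2) (hT : ∀ p ∈ I, g p.2 ≤ T) (hK : 2 ≤ K) :
    Spr 1 (C * (2 * K + 1) * 2) (chJ 2 I f g) (posB K T 0 I f g) (posB K T 1 I f g) := by
  intro s H hH hs
  have hJI : chJ 2 I f g ⊆ I := chJ_subset _ _ _ _
  have hHI : H ⊆ I := hH.trans hJI
  obtain ⟨κ, hκ⟩ : ∃ κ, κ = Nat.log K T - s := ⟨_, rfl⟩
  obtain ⟨q, hq⟩ : ∃ q, q = K ^ κ := ⟨_, rfl⟩
  obtain ⟨k, hk⟩ : ∃ k, k = K ^ (κ + 1) := ⟨_, rfl⟩
  have hkq : k = K * q := by rw [hk, hq, pow_succ, mul_comm]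
  have hq1 : 1 ≤ q := by
    rw [hq]
    exact Nat.one_le_pow _ _ (by omega)
  have hk1 : 1 ≤ k := by
    rw [hk]
    exact Nat.one_le_pow _ _ (by omega)
  -- all the inequalities along one incidence
  have hch : ∀ p ∈ chJ 2 I f g,
      chF 0 I f g p.1 < chF 1 I f g p.2 ∧
      chF 3 I f g p.2 - chF 1 I f g p.2 ≤ chF 1 I f g p.2 - chF 0 I f g p.1 ∧
      chF 1 I f g p.2 < chF 2 I f g p.1 ∧
      chF 4 I f g p.1 - chF 2 I f g p.1 ≤ chF 2 I f g p.1 - chF 1 I f g p.2 ∧
      chF 2 I f g p.1 ≤ chF 3 I f g p.2 ∧ chF 3 I f g p.2 ≤ chF 4 I f g p.1 := by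
    intro p hp
    have h0 := chain_gap hp (i := 0) (by omega)
    have h1 := chain_gap hp (i := 1) (by omega)
    have h2 := chain_le hfg hp (i := 2) (by omega)
    have h3 := chain_le hfg hp (i := 3) (by omega)
    exact ⟨h0.1, h0.2, h1.1, h1.2, h2, h3⟩
  -- the first difference is large, the last one is small
  have hfirst : ∀ p ∈ H, q ≤ chF 2 I f g p.1 - chF 0 I f g p.1 := by
    intro p hp
    have h1 := (hs p hp).1
    obtain ⟨h2, h3, h4, h5, h6, h7⟩ := hch p (hH hp)
    unfold posB at h1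
    have h4 : κ ≤ Nat.log K (chF 2 I f g p.1 - chF 0 I f g p.1) := by
      rw [hκ]
      have h5 : Nat.log K T - Nat.log K (chF 2 I f g p.1 - chF 0 I f g p.1) ≤ s := h1
      omega
    rw [hq]
    refine (Nat.pow_le_pow_right (by omega) h4).trans ?_
    exact Nat.pow_log_le_self K (by omega)
  have hlast : ∀ p ∈ H, chF 4 I f g p.1 - chF 2 I f g p.1 < k := by
    intro p hp
    have h1 : s ≤ up (chJ 2 I f g) (posB K T 1 I f g) p.1 := (hs p hp).2
    have h2 : up (chJ 2 I f g) (posB K T 1 I f g) p.1 ≤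
        Nat.log K T - Nat.log K (chF 4 I f g p.1 - chF 2 I f g p.1) := by
      refine up_le fun w hw => ?_
      obtain ⟨h2, h3, h4, h5, h6, h7⟩ := hch _ hw
      simp only at h2 h3 h4 h5 h6 h7
      unfold posB
      refine Nat.sub_le_sub_left (Nat.log_mono_right ?_) _
      have h8 : chF 3 I f g w - chF 1 I f g w = chF (1 + 2) I f g w - chF 1 I f g w := rfl
      rw [← h8]
      omega
    have h3 := h1.trans h2
    have h4 : chF 4 I f g p.1 ≤ T := by
      refine (chF_le_E 3 I f g p.1).trans ?_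
      exact E_le 3 hT (hHI hp)
    have h5 : Nat.log K (chF 4 I f g p.1 - chF 2 I f g p.1) ≤ Nat.log K T :=
      Nat.log_mono_right ((Nat.sub_le _ _).trans h4)
    have h6 : Nat.log K (chF 4 I f g p.1 - chF 2 I f g p.1) ≤ κ := by
      rw [hκ]
      omega
    rw [hk]
    refine lt_of_lt_of_le (Nat.lt_pow_succ_log_self (by omega : 1 < K) _) ?_
    exact Nat.pow_le_pow_right (by omega) (by omega)
  have hzone : ∀ p ∈ H, ∀ s', f p.1 ≤ s' → s' ≤ chF 2 I f g p.1 →
      f p.1 ≤ s' ∧ s' ≤ E 1 I g (side 1 p) := by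
    intro p hp s' h1 h2
    exact ⟨h1, h2.trans (chF_le_E 1 I f g p.1)⟩
  -- the two parts
  obtain ⟨P, hP⟩ : ∃ P, P = H.filter (fun p => chF 3 I f g p.2 - chF 1 I f g p.2 < k) := ⟨_, rfl⟩
  obtain ⟨Q, hQ⟩ : ∃ Q, Q = H.filter (fun p => ¬ chF 3 I f g p.2 - chF 1 I f g p.2 < k) := ⟨_, rfl⟩
  have hPH : P ⊆ H := by
    rw [hP]
    exact Finset.filter_subset _ _
  have hQH : Q ⊆ H := by
    rw [hQ]
    exact Finset.filter_subset _ _
  have hPQ : H.card = P.card + Q.card := by
    rw [hP, hQ]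
    exact (Finset.card_filter_add_card_filter_not _).symm
  have c1 : P.card ≤ C * (2 * K + 1) * nn H := by
    obtain ⟨w, hw⟩ : ∃ w, w = (q + 1) / 2 := ⟨_, rfl⟩
    have h1 := Pool.Agent.MP_245544_coT.window (J := P) (C := C) (w := w) (m := 2 * K + 1)
      (fun l => chF 1 I f g l - w) (fun x => chF 2 I f g x - (k + w)) (by omega) (by omega) ?_ ?_
    · exact h1.trans (Nat.mul_le_mul_left _ (nn_mono hPH))
    · intro s' H' hH' hs'
      refine h s' H' ((hH'.trans hPH).trans hHI) fun p hp => ?_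
      have hpH := hPH (hH' hp)
      obtain ⟨h2, h3, h4, h5, h6, h7⟩ := hch p (hH hpH)
      have h8 := hfirst p hpH
      have h9 := hs' p hp
      have h10 : f p.1 = chF 0 I f g p.1 := rfl
      refine hzone p hpH s' ?_ ?_
      · rw [h10]
        omega
      · omega
    · intro p hp
      have hpH := hPH hp
      obtain ⟨h2, h3, h4, h5, h6, h7⟩ := hch p (hH hpH)
      have h8 := hfirst p hpH
      have h9 : chF 3 I f g p.2 - chF 1 I f g p.2 < k := by
        rw [hP] at hp
        exact (Finset.mem_filter.1 hp).2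
      have h10 : k ≤ 2 * K * w := by
        rw [hkq]
        have h7 : q ≤ 2 * w := by omega
        calc K * q ≤ K * (2 * w) := Nat.mul_le_mul_left _ h7
          _ = 2 * K * w := by ring
      have h11 : (2 * K + 1) * w = 2 * K * w + w := by ring
      rw [h11]
      generalize 2 * K * w = z at h10
      omega
  have c2 : Q.card ≤ C * (2 * K + 1) * nn H := by
    have h1 := window_tr (J := Q) (C := C) (w := k) (m := 2)
      (fun x => chF 2 I f g x - k) (fun l => chF 3 I f g l - 2 * k) hk1 (by norm_num) ?_ ?_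
    · refine h1.trans ((Nat.mul_le_mul_left _ (nn_mono hQH)).trans ?_)
      exact Nat.mul_le_mul_right _ (Nat.mul_le_mul_left _ (by omega))
    · intro s' H' hH' hs'
      refine h s' H' ((hH'.trans hQH).trans hHI) fun p hp => ?_
      have hpH := hQH (hH' hp)
      obtain ⟨h2, h3, h4, h5, h6, h7⟩ := hch p (hH hpH)
      have h9 := hs' p hp
      have h10 : f p.1 = chF 0 I f g p.1 := rfl
      have h11 : ¬ chF 3 I f g p.2 - chF 1 I f g p.2 < k := by
        have h12 := hH' hp
        rw [hQ] at h12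
        exact (Finset.mem_filter.1 h12).2
      refine hzone p hpH s' ?_ ?_
      · rw [h10]
        omega
      · omega
    · intro p hp
      have hpH := hQH hp
      obtain ⟨h2, h3, h4, h5, h6, h7⟩ := hch p (hH hpH)
      have h8 := hlast p hpH
      have h11 : ¬ chF 3 I f g p.2 - chF 1 I f g p.2 < k := by
        rw [hQ] at hp
        exact (Finset.mem_filter.1 hp).2
      constructor
      · omega
      · omega
  rw [hPQ]
  have h1 : C * (2 * K + 1) * 2 * nn H = C * (2 * K + 1) * nn H + C * (2 * K + 1) * nn H := by ring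
  rw [h1]
  exact Nat.add_le_add c1 c2

end Pool.Agent.MP_245544_coT
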