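import Pool.Agent.Lib.MP_245544_coV.Base1
import Pool.Agent.Lib.MP_245544_coV.LemA1
import Pool.Agent.Lib.MP_245544_coV.LemB1
import Pool.Agent.Lib.MP_245544_coI.Asm2

/-! MP_245544_co: the chain of radii `1, 4, 10, 22, 46, …` and the bound for drawings. -/

namespace Pool.Agent.MP_245544_coT

/-- `TH r b`: structures that are sparse at radius `r` have at most `b T` times their number of vertices
incidences, up to a constant. -/
def TH (r : ℕ) (b : ℕ → ℕ) : Prop :=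
  ∀ C : ℕ, ∃ A : ℕ, ∀ (V : Type) [DecidableEq V] (I : Finset (V × V)) (f g : V → ℕ) (T : ℕ),
    Spr r C I f g → (∀ p ∈ I, f p.1 ≤ g p.2) → (∀ p ∈ I, g p.2 ≤ T) → I.card ≤ A * b T * nn I

/-- The infimum of `q + log_q T` over `q ≥ 2`. -/
noncomputable def bb (T : ℕ) : ℕ := ⨅ q : ℕ, (q + 2 + Nat.log (q + 2) T)

theorem bb_le {q T : ℕ} (hq : 2 ≤ q) : bb T ≤ q + Nat.log q T := by
  obtain ⟨q, rfl⟩ : ∃ q', q = q' + 2 := ⟨q - 2, by omega⟩
  exact ciInf_le' (fun q : ℕ => q + 2 + Nat.log (q + 2) T) q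

theorem exists_bb (T : ℕ) : ∃ q, 2 ≤ q ∧ bb T = q + Nat.log q T := by
  obtain ⟨q, hq⟩ := Nat.sInf_mem (Set.range_nonempty fun q : ℕ => q + 2 + Nat.log (q + 2) T)
  exact ⟨q + 2, by omega, hq.symm⟩

theorem bb_mono : Monotone bb := by
  intro a b hab
  obtain ⟨q, hq, h⟩ := exists_bb b
  rw [h]
  exact (bb_le hq).trans (Nat.add_le_add_left (Nat.log_mono_right hab) _)

theorem one_le_bb (T : ℕ) : 1 ≤ bb T := by
  obtain ⟨q, hq, h⟩ := exists_bb T
  omega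

theorem th_base : TH 1 bb := by
  intro C
  refine ⟨7 * C, ?_⟩
  intro V _ I f g T h hfg hT
  obtain ⟨q, hq, hb⟩ := exists_bb T
  rw [hb]
  exact h.base_one hfg hT hq

/-- One step of the chain. -/
theorem th_step {r : ℕ} {b : ℕ → ℕ} (hbm : Monotone b) (hb1 : ∀ T, 1 ≤ b T) (ih : TH r b)
    (hA : ∀ C : ℕ, ∃ A : ℕ, ∀ (V : Type) [DecidableEq V] (I : Finset (V × V)) (f g : V → ℕ) (T : ℕ),
      Spr (r + 2) C I f g → (∀ p ∈ I, f p.1 ≤ g p.2) → (∀ p ∈ I, g p.2 ≤ T) →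
      (clsA I f g).card ≤ A * b (Nat.log 2 T) * nn I)
    (hB : ∀ C : ℕ, ∃ C' K : ℕ, 2 ≤ K ∧ ∀ (V : Type) [DecidableEq V] (I : Finset (V × V))
      (f g : V → ℕ) (T : ℕ), Spr r C I f g → (∀ p ∈ I, f p.1 ≤ g p.2) → (∀ p ∈ I, g p.2 ≤ T) →
      Spr r C' (chJ (r + 1) I f g) (posB K T 0 I f g) (posB K T 1 I f g)) :
    TH (2 * (r + 1)) (fun T => b (Nat.log 2 T)) := by
  intro C
  obtain ⟨A1, hA1⟩ := hA C
  obtain ⟨C', K, hK, hB'⟩ := hB C
  obtain ⟨A2, hA2⟩ := ih C'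
  refine ⟨A2 + (r + 1) * (C + A1), ?_⟩
  intro V _ I f g T h hfg hT
  have hrr : 2 * (r + 1) = r + 1 + (r + 1) := by ring
  rw [hrr] at h
  have h1 := chain_card (r := r) (n := r + 1) (B := A1 * b (Nat.log 2 T)) (T := T)
    (fun I' f' g' h' hfg' hT' => hA1 V I' f' g' T h' hfg' hT') h hfg hT
  have h2 : Spr r C I f g := h.le (by omega)
  have h3 := hB' V I f g T h2 hfg hT
  have hJ : chJ (r + 1) I f g ⊆ I := chJ_subset _ _ _ _
  have h4 := hA2 V (chJ (r + 1) I f g) _ _ (Nat.log K T) h3 (fun p hp => posB_le hfg hp)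
    (fun p _ => Nat.sub_le _ _)
  have h5 : b (Nat.log K T) ≤ b (Nat.log 2 T) :=
    hbm (Nat.log_anti_left (by norm_num) hK)
  have h6 : (chJ (r + 1) I f g).card ≤ A2 * b (Nat.log 2 T) * nn I :=
    h4.trans (Nat.mul_le_mul (Nat.mul_le_mul_left _ h5) (nn_mono hJ))
  have h7 : 1 ≤ b (Nat.log 2 T) := hb1 _
  show I.card ≤ (A2 + (r + 1) * (C + A1)) * b (Nat.log 2 T) * nn I
  generalize b (Nat.log 2 T) = B at h1 h6 h7 ⊢
  generalize nn I = N at h1 h6 ⊢
  refine h1.trans ?_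
  have h8 : C ≤ C * B := Nat.le_mul_of_pos_right _ h7
  calc (chJ (r + 1) I f g).card + (r + 1) * ((C + A1 * B) * N)
      ≤ A2 * B * N + (r + 1) * ((C * B + A1 * B) * N) := by
        refine Nat.add_le_add h6 (Nat.mul_le_mul_left _ (Nat.mul_le_mul_right _ ?_))
        omega
    _ = (A2 + (r + 1) * (C + A1)) * B * N := by ring

theorem th_step_even {r : ℕ} (hr : r % 2 = 0) {b : ℕ → ℕ} (hbm : Monotone b)
    (hb1 : ∀ T, 1 ≤ b T) (ih : TH r b) : TH (2 * (r + 1)) (fun T => b (Nat.log 2 T)) := by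
  refine th_step hbm hb1 ih (fun C => ?_) (fun C => ?_)
  · obtain ⟨K, hK⟩ : ∃ K, K = 2 * r + 2 := ⟨_, rfl⟩
    obtain ⟨A1, hA1⟩ := ih (C * (4 * K + 1))
    refine ⟨2 * A1, ?_⟩
    intro V _ I f g T h hfg hT
    exact h.card_clsA b hbm (fun I' f' g' T' hs hfg' hT' => hA1 V I' f' g' T' hs hfg' hT')
      hfg hT hr hK.ge
  · refine ⟨C * (2 * (2 * r + 2) + 1) * (r / 2 + 1), 2 * r + 2, by omega, ?_⟩
    intro V _ I f g T h hfg hT
    exact h.chain_spr hfg hT hr (by omega)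

theorem th_step_one {b : ℕ → ℕ} (hbm : Monotone b) (hb1 : ∀ T, 1 ≤ b T) (ih : TH 1 b) :
    TH 4 (fun T => b (Nat.log 2 T)) := by
  refine th_step (r := 1) hbm hb1 ih (fun C => ?_) (fun C => ?_)
  · obtain ⟨A1, hA1⟩ := ih (C * (4 * 4 + 1))
    refine ⟨2 * A1, ?_⟩
    intro V _ I f g T h hfg hT
    exact h.card_clsA_one (K := 4) b
      (fun I' f' g' T' hs hfg' hT' => hA1 V I' f' g' T' hs hfg' hT') hfg hT le_rfl
  · refine ⟨C * (2 * 4 + 1) * 2, 4, by omega, ?_⟩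
    intro V _ I f g T h hfg hT
    exact h.chain_spr_one hfg hT (by omega)

/-- The radii `1, 4, 10, 22, 46, …`. -/
def ss : ℕ → ℕ
  | 0 => 1
  | k + 1 => 2 * (ss k + 1)

theorem ss_eq (k : ℕ) : ss k + 2 = 3 * 2 ^ k := by
  induction k with
  | zero => rfl
  | succ k ih =>
    have h1 : ss (k + 1) = 2 * (ss k + 1) := rfl
    rw [h1, pow_succ 2 k]
    omega

theorem bb_iter_mono (k : ℕ) : Monotone fun T : ℕ => bb ((Nat.log 2)^[k] T) := by
  intro a b hab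
  exact bb_mono (Monotone.iterate (fun x y hxy => Nat.log_mono_right hxy) k hab)

theorem th_iter (k : ℕ) : TH (ss k) (fun T => bb ((Nat.log 2)^[k] T)) := by
  induction k with
  | zero => exact th_base
  | succ k ih =>
    have h0 : (fun T => bb ((Nat.log 2)^[k + 1] T)) =
        fun T => (fun T => bb ((Nat.log 2)^[k] T)) (Nat.log 2 T) := by
      funext T
      rw [Function.iterate_succ_apply]
    rw [h0]
    cases k with
    | zero => exact th_step_one (bb_iter_mono 0) (fun T => one_le_bb _) ih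
    | succ k =>
      have h1 : ss (k + 1) = 2 * (ss k + 1) := rfl
      exact th_step_even (by omega) (bb_iter_mono (k + 1)) (fun T => one_le_bb _) ih

/-- The bound for drawings: crossing distance at least `3 * 2 ^ j + 3`. -/
theorem maxEdges_bb {j k : ℕ} (hj : 1 ≤ j) (hk : 3 * 2 ^ j + 3 ≤ k) :
    ∃ C : ℕ, ∀ n, maxEdges k n ≤ C * n * bb ((Nat.log 2)^[j - 1] n) := by
  obtain ⟨i, rfl⟩ : ∃ i, j = i + 1 := ⟨j - 1, by omega⟩
  have h1 := ss_eq i
  have h2 : 2 * ss i + 7 ≤ k := by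
    rw [pow_succ] at hk
    omega
  have h3 : i + 1 - 1 = i := by omega
  rw [h3]
  exact maxEdges_of_spr' h2 (fun n => bb ((Nat.log 2)^[i] n)) (fun n => one_le_bb _)
    (bb_iter_mono i) (th_iter i)

end Pool.Agent.MP_245544_coT
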